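import Mathlib

set_option autoImplicit false

namespace Pool.Agent.Helper672.HZ

/-- The Cantor group `(ℤ/2)^(ℕ×ℕ)`, written multiplicatively. -/
abbrev G : Type := ℕ × ℕ → Multiplicative (ZMod 2)

/-- `Fin × Fin`: all but finitely many rows have finite support. -/
def H : Set G := {x | ∃ N : ℕ, ∀ r ≥ N, ∃ c : ℕ, ∀ c' ≥ c, x (r, c') = 1}

/-- Two sequences of gap sets, with the bounds used in the recursion, and one point. -/
structure Dat where
  A : ℕ → Set (ℕ × ℕ)
  B : ℕ → Set (ℕ × ℕ)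
  bd : ℕ → ℕ
  pt : G
  hA : ∀ j p, p ∈ A j → j ≤ p.1
  hB : ∀ j p, p ∈ B j → j ≤ p.1
  disj : ∀ j j' p, p ∈ A j → p ∉ B j'
  hbA : ∀ j p, p ∈ A j → p.2 < bd p.1
  hbB : ∀ j p, p ∈ B j → p.2 < bd p.1

/-- `x` is trivial on `A j` or on `B j`. -/
def con (d : Dat) (j : ℕ) (x : G) : Prop := (∀ p ∈ d.A j, x p = 1) ∨ (∀ p ∈ d.B j, x p = 1)

theorem isClosed_con (d : Dat) (j : ℕ) : IsClosed {x : G | con d j x} := by
  have h : {x : G | con d j x} = (⋂ p ∈ d.A j, {x : G | x p = 1}) ∪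
      (⋂ p ∈ d.B j, {x : G | x p = 1}) := by
    ext x; simp [con]
  rw [h]
  exact (isClosed_biInter fun p _ => isClosed_eq (continuous_apply p) continuous_const).union
    (isClosed_biInter fun p _ => isClosed_eq (continuous_apply p) continuous_const)

/-- A compact set inside an open set: a finite window decides membership. -/
theorem window (K O : Set G) (hK : IsCompact K) (hO : IsOpen O) (hKO : K ⊆ O) :
    ∃ M : ℕ, ∀ x : G, (∃ y ∈ K, ∀ p : ℕ × ℕ, p.1 < M → p.2 < M → x p = y p) → x ∈ O := by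
  classical
  have h1 : ∀ y : G, ∃ M : ℕ, y ∈ K → ∀ x : G, (∀ p : ℕ × ℕ, p.1 < M → p.2 < M → x p = y p) →
      x ∈ O := by
    intro y
    by_cases hy : y ∈ K
    · obtain ⟨I, u, hu, hI⟩ := isOpen_pi_iff.mp hO y (hKO hy)
      refine ⟨(I.sup fun p => max p.1 p.2) + 1, fun _ x hx => hI fun p hp => ?_⟩
      have h2 : max p.1 p.2 ≤ I.sup fun p => max p.1 p.2 :=
        Finset.le_sup (f := fun p : ℕ × ℕ => max p.1 p.2) hp
      rw [hx p (by have := le_max_left p.1 p.2; omega) (by have := le_max_right p.1 p.2; omega)]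
      exact (hu p hp).2
    · exact ⟨0, fun h => absurd h hy⟩
  choose m hm using h1
  let U : G → Set G := fun y => {z | ∀ p : ℕ × ℕ, p.1 < m y → p.2 < m y → z p = y p}
  have hU : ∀ y ∈ K, U y ∈ nhds y := by
    intro y _
    apply IsOpen.mem_nhds
    · have : U y = ⋂ p ∈ (Finset.range (m y) ×ˢ Finset.range (m y)), {z : G | z p = y p} := by
        ext z
        simp only [U, Set.mem_setOf_eq, Set.mem_iInter, Finset.mem_product, Finset.mem_range]
        constructor
        · rintro h p ⟨h1, h2⟩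
          exact h p h1 h2
        · intro h p h1 h2
          exact h p ⟨h1, h2⟩
      rw [this]
      apply isOpen_biInter_finset
      intro p _
      have h3 : {z : G | z p = y p} = (fun z : G => z p) ⁻¹' {y p} := by
        ext z; simp
      rw [h3]
      exact (isOpen_discrete _).preimage (continuous_apply p)
    · intro p _ _
      rfl
  obtain ⟨t, ht, hcov⟩ := hK.elim_nhds_subcover U hU
  refine ⟨t.sup m, ?_⟩
  rintro x ⟨y, hy, hxy⟩
  have h4 := hcov hy
  simp only [Set.mem_iUnion] at h4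
  obtain ⟨z, hz, hyz⟩ := h4
  apply hm z (ht z hz)
  intro p hp1 hp2
  have h5 : m z ≤ t.sup m := Finset.le_sup hz
  rw [hxy p (by omega) (by omega)]
  exact hyz p hp1 hp2

/-- The gap property. -/
theorem gap {ι : Type} (r : ι → ℕ) (D : ι → Dat) (g : ℕ → ℕ) (O : Set G) (hO : IsOpen O) (k : ℕ)
    (hall : ∀ x : G, x ∈ H → (∀ i j, k ≤ j → r i ≤ j → con (D i) j x) → x ∈ O) :
    ∃ M : ℕ, ∀ x : G, (∀ i j, k ≤ j → r i ≤ j → con (D i) j x) →
      (∀ p : ℕ × ℕ, k ≤ p.1 → p.1 < M → g p.1 ≤ p.2 → p.2 < M → x p = 1) → x ∈ O := by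
  classical
  set K : Set G := {x | (∀ p : ℕ × ℕ, k ≤ p.1 → g p.1 ≤ p.2 → x p = 1) ∧
    ∀ i j, k ≤ j → r i ≤ j → con (D i) j x} with hKdef
  have hclosed : IsClosed K := by
    have h : K = (⋂ (p : ℕ × ℕ) (_ : k ≤ p.1) (_ : g p.1 ≤ p.2), {x : G | x p = 1}) ∩
        (⋂ (i : ι) (j : ℕ) (_ : k ≤ j) (_ : r i ≤ j), {x : G | con (D i) j x}) := by
      ext x
      simp only [hKdef, Set.mem_inter_iff, Set.mem_iInter]
      rfl
    rw [h]
    refine IsClosed.inter ?_ ?_
    · exact isClosed_iInter fun p => isClosed_iInter fun _ => isClosed_iInter fun _ =>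
        isClosed_eq (continuous_apply p) continuous_const
    · exact isClosed_iInter fun i => isClosed_iInter fun j => isClosed_iInter fun _ =>
        isClosed_iInter fun _ => isClosed_con (D i) j
  have hcomp : IsCompact K := hclosed.isCompact
  have hKO : K ⊆ O := by
    rintro x ⟨h1, h2⟩
    refine hall x ⟨k, fun r' hr' => ⟨g r', fun c' hc' => h1 (r', c') hr' hc'⟩⟩ h2
  obtain ⟨M, hM⟩ := window K O hcomp hO hKO
  refine ⟨M, fun x hx1 hx2 => ?_⟩
  apply hM x
  refine ⟨fun p => if p.1 < M ∧ p.2 < M then x p else 1, ⟨?_, ?_⟩, ?_⟩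
  · intro p hp1 hp2
    show (if p.1 < M ∧ p.2 < M then x p else 1) = 1
    split_ifs with h
    · exact hx2 p hp1 h.1 hp2 h.2
    · rfl
  · intro i j hkj hrj
    rcases hx1 i j hkj hrj with h | h
    · left
      intro p hp
      show (if p.1 < M ∧ p.2 < M then x p else 1) = 1
      split_ifs
      · exact h p hp
      · rfl
    · right
      intro p hp
      show (if p.1 < M ∧ p.2 < M then x p else 1) = 1
      split_ifs
      · exact h p hp
      · rfl
  · intro p hp1 hp2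
    show x p = if p.1 < M ∧ p.2 < M then x p else 1
    rw [if_pos ⟨hp1, hp2⟩]

theorem exists_bound {ι : Type} (r : ι → ℕ) (hr : ∀ n, {i | r i ≤ n}.Finite) (b : ι → ℕ → ℕ) :
    ∃ g : ℕ → ℕ, ∀ i row, r i ≤ row → b i row ≤ g row := by
  refine ⟨fun row => (hr row).toFinset.sup (fun i => b i row), fun i row h => ?_⟩
  exact Finset.le_sup (f := fun i => b i row) (by simpa using h)

theorem step {ι : Type} (r : ι → ℕ) (hr : ∀ n, {i | r i ≤ n}.Finite) (D : ι → Dat)
    (O : ℕ → Set G) (hO : ∀ n, IsOpen (O n)) (hanti : ∀ m n, m ≤ n → O n ⊆ O m) :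
    ∃ d : Dat,
      (∀ i p, r i ≤ p.1 → (∃ j, p ∈ d.A j ∨ p ∈ d.B j) → (D i).bd p.1 ≤ p.2) ∧
      ((d.pt ∈ H ∧ (∃ k, ∀ i j, k ≤ j → r i ≤ j → con (D i) j d.pt) ∧ ∃ n, d.pt ∉ O n) ∨
       (∀ x : G, ∀ k, (∀ i j, k ≤ j → r i ≤ j → con (D i) j x) → (∀ j, k ≤ j → con d j x) →
         ∀ n, x ∈ O n)) := by
  classical
  by_cases hk : ∃ x : G, x ∈ H ∧ (∃ k, ∀ i j, k ≤ j → r i ≤ j → con (D i) j x) ∧ ∃ n, x ∉ O n
  · obtain ⟨x, hx⟩ := hk
    refine ⟨⟨fun _ => ∅, fun _ => ∅, fun _ => 0, x, by simp, by simp, by simp, by simp, by simp⟩,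
      ?_, Or.inl hx⟩
    rintro i p _ ⟨j, h | h⟩
    · exact absurd h (by simp)
    · exact absurd h (by simp)
  · obtain ⟨g, hg⟩ := exists_bound r hr (fun i => (D i).bd)
    have hgap : ∀ k n : ℕ, ∃ M : ℕ, ∀ x : G, (∀ i j, k ≤ j → r i ≤ j → con (D i) j x) →
        (∀ p : ℕ × ℕ, k ≤ p.1 → p.1 < M → g p.1 ≤ p.2 → p.2 < M → x p = 1) → x ∈ O n := by
      intro k n
      refine gap r D g (O n) (hO n) k ?_
      intro x hx hcon
      by_contra hno
      exact hk ⟨x, hx, ⟨k, hcon⟩, n, hno⟩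
    choose Mf hMf using hgap
    -- the starting rows
    let nb : ℕ → ℕ → ℕ := fun j a => max (Mf a j) a + 1
    let st : ℕ → ℕ := fun j => Nat.rec 0 (fun j a => nb j (nb j a)) j
    have st_succ : ∀ j, st (j + 1) = nb j (nb j (st j)) := fun j => rfl
    have nb_gt : ∀ j a, a < nb j a := fun j a => by simp only [nb]; omega
    have nb_M : ∀ j a, Mf a j < nb j a := fun j a => by simp only [nb]; omega
    have st_lt : ∀ j, nb j (st j) < st (j + 1) := fun j => by rw [st_succ]; exact nb_gt _ _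
    have st_lt' : ∀ j, st j < st (j + 1) := fun j => (nb_gt _ _).trans (st_lt j)
    have st_mono : StrictMono st := strictMono_nat_of_lt_succ st_lt'
    have st_ge : ∀ j, j ≤ st j := st_mono.id_le
    let mA : ℕ → ℕ := fun j => Mf (st j) j
    let mB : ℕ → ℕ := fun j => Mf (nb j (st j)) j
    let A : ℕ → Set (ℕ × ℕ) := fun j => {p | st j ≤ p.1 ∧ p.1 < mA j ∧ g p.1 ≤ p.2 ∧ p.2 < mA j}
    let B : ℕ → Set (ℕ × ℕ) := fun j =>
      {p | nb j (st j) ≤ p.1 ∧ p.1 < mB j ∧ g p.1 ≤ p.2 ∧ p.2 < mB j}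
    let bd : ℕ → ℕ := fun row => (Finset.range (row + 1)).sup (fun j => max (mA j) (mB j))
    have hbd : ∀ j row, j ≤ row → mA j ≤ bd row ∧ mB j ≤ bd row := by
      intro j row h
      have h1 : max (mA j) (mB j) ≤ bd row :=
        Finset.le_sup (f := fun j => max (mA j) (mB j)) (Finset.mem_range.2 (by omega))
      exact ⟨(le_max_left _ _).trans h1, (le_max_right _ _).trans h1⟩
    have hA1 : ∀ j p, p ∈ A j → j ≤ p.1 := fun j p hp => (st_ge j).trans hp.1
    have hB1 : ∀ j p, p ∈ B j → j ≤ p.1 := fun j p hp =>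
      ((st_ge j).trans (nb_gt j (st j)).le).trans hp.1
    refine ⟨⟨A, B, bd, fun _ => 1, hA1, hB1, ?_, ?_, ?_⟩, ?_, Or.inr ?_⟩
    · intro j j' p hp hp'
      have h1 : p.1 < nb j (st j) := lt_trans hp.2.1 (nb_M _ _)
      have h2 : p.1 < st (j' + 1) := by
        rw [st_succ]; exact lt_trans hp'.2.1 (nb_M _ _)
      have h3 : st j ≤ p.1 := hp.1
      have h4 : nb j' (st j') ≤ p.1 := hp'.1
      rcases lt_trichotomy j j' with h | h | h
      · have h5 : st (j + 1) ≤ st j' := st_mono.monotone h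
        have h6 := st_lt j
        have h7 := nb_gt j' (st j')
        omega
      · subst h; omega
      · have h5 : st (j' + 1) ≤ st j := st_mono.monotone h
        omega
    · intro j p hp
      exact lt_of_lt_of_le hp.2.2.2 (hbd j p.1 (hA1 j p hp)).1
    · intro j p hp
      exact lt_of_lt_of_le hp.2.2.2 (hbd j p.1 (hB1 j p hp)).2
    · rintro i p hi ⟨j, hp | hp⟩
      · exact (hg i p.1 hi).trans hp.2.2.1
      · exact (hg i p.1 hi).trans hp.2.2.1
    · intro x k h1 h2 n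
      have hj : k ≤ max k n := le_max_left _ _
      refine hanti n (max k n) (le_max_right _ _) ?_
      rcases h2 (max k n) hj with h3 | h3
      · refine hMf (st (max k n)) (max k n) x (fun i j hj' hr' => h1 i j ?_ hr') ?_
        · exact (hj.trans (st_ge _)).trans hj'
        · intro p hp1 hp2 hp3 hp4
          exact h3 p ⟨hp1, hp2, hp3, hp4⟩
      · refine hMf (nb (max k n) (st (max k n))) (max k n) x (fun i j hj' hr' => h1 i j ?_ hr') ?_
        · exact ((hj.trans (st_ge _)).trans (nb_gt _ _).le).trans hj'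
        · intro p hp1 hp2 hp3 hp4
          exact h3 p ⟨hp1, hp2, hp3, hp4⟩

end Pool.Agent.Helper672.HZ
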