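import Mathlib
import Pool.Agent.Helper672.HZ.Base

set_option autoImplicit false

namespace Pool.Agent.Helper672.HZ

theorem measurable_H : @MeasurableSet G (borel G) H := by
  have hb : @BorelSpace G _ (borel G) := @BorelSpace.mk G _ (borel G) rfl
  have hcl : ∀ r c' : ℕ, @MeasurableSet G (borel G) {x : G | x (r, c') = 1} := by
    intro r c'
    have h1 : IsClosed {x : G | x (r, c') = 1} :=
      isClosed_eq (continuous_apply (r, c')) continuous_const
    exact @IsClosed.measurableSet G _ _ (borel G) (@BorelSpace.opensMeasurable G _ (borel G) hb) h1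
  have e : H = ⋃ N : ℕ, ⋂ r : ℕ, ⋂ (_ : r ≥ N), ⋃ c : ℕ, ⋂ c' : ℕ, ⋂ (_ : c' ≥ c),
      {x : G | x (r, c') = 1} := by
    ext x
    simp only [Set.mem_iUnion, Set.mem_iInter]
    rfl
  rw [e]
  let _ := borel G
  refine MeasurableSet.iUnion fun N => MeasurableSet.iInter fun r => MeasurableSet.iInter fun _ =>
    MeasurableSet.iUnion fun c => MeasurableSet.iInter fun c' => MeasurableSet.iInter fun _ =>
      hcl r c'

theorem not_sigmaCompact_H : ¬ IsSigmaCompact H := by
  rintro ⟨K, hK, hKH⟩
  set a : Multiplicative (ZMod 2) := Multiplicative.ofAdd 1 with ha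
  have ha1 : a ≠ 1 := by decide
  let e : (ℕ → ℕ) → G := fun f p => if p.2 < f p.1 then a else 1
  have he : Continuous e := by
    refine continuous_pi fun p => ?_
    have h1 : Continuous fun n : ℕ => if p.2 < n then a else 1 := continuous_of_discreteTopology
    exact h1.comp (continuous_apply p.1)
  have heH : ∀ f, e f ∈ H := by
    intro f
    refine ⟨0, fun r _ => ⟨f r, fun c' hc' => ?_⟩⟩
    simp only [e]
    rw [if_neg (not_lt.2 hc')]
  have hcl : ∀ n, IsClosed (K n) := fun n => (hK n).isClosed
  have hun : (⋃ n, e ⁻¹' (K n)) = Set.univ := by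
    rw [← Set.preimage_iUnion, hKH]
    exact Set.eq_univ_of_forall heH
  obtain ⟨n, s, hs⟩ := nonempty_interior_of_iUnion_of_closed (fun n => (hcl n).preimage he) hun
  obtain ⟨F, u, hu, hsub⟩ := isOpen_pi_iff.1 isOpen_interior s hs
  obtain ⟨k, hk⟩ : ∃ k, ∀ i ∈ F, i < k := ⟨F.sup id + 1, fun i hi =>
    Nat.lt_succ_of_le (Finset.le_sup (f := id) hi)⟩
  have hagree : ∀ f : ℕ → ℕ, (∀ i < k, f i = s i) → e f ∈ K n := by
    intro f hf
    have h1 : f ∈ (↑F : Set ℕ).pi u := by
      intro i hi
      rw [hf i (hk i hi)]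
      exact (hu i hi).2
    have h2 : f ∈ e ⁻¹' (K n) := interior_subset (hsub h1)
    exact h2
  let fm : ℕ → ℕ → ℕ := fun m r => if r < k then s r else m
  let t : G := fun p => if p.1 < k then e s p else a
  have hlim : Filter.Tendsto (fun m => e (fm m)) Filter.atTop (nhds t) := by
    rw [tendsto_pi_nhds]
    intro p
    by_cases hp : p.1 < k
    · have h1 : ∀ m, e (fm m) p = t p := by
        intro m
        simp only [e, fm, t, if_pos hp]
      simp only [h1]
      exact tendsto_const_nhds
    · have h1 : ∀ᶠ m in Filter.atTop, t p = e (fm m) p := by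
        filter_upwards [Filter.eventually_gt_atTop p.2] with m hm
        simp only [e, fm, t, if_neg hp, if_pos hm]
      exact tendsto_const_nhds.congr' h1
  have htK : t ∈ K n := (hcl n).mem_of_tendsto hlim (Filter.Eventually.of_forall fun m =>
    hagree _ fun i hi => by simp only [fm, if_pos hi])
  have htH : t ∈ H := by
    rw [← hKH]
    exact Set.mem_iUnion.2 ⟨n, htK⟩
  obtain ⟨N, hN⟩ := htH
  obtain ⟨c, hc⟩ := hN (max N k) (le_max_left _ _)
  have h2 := hc c le_rfl
  simp only [t, if_neg (not_lt.2 (le_max_right N k))] at h2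
  exact ha1 h2

end Pool.Agent.Helper672.HZ
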