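import Mathlib

set_option autoImplicit false

namespace Pool.Agent.Helper672.HZ

structure Good {I : Type} [LinearOrder I] (ρ : I → I → ℕ) (δ : I) : Prop where
  self : ρ δ δ = 0
  fin : ∀ n, {β | β ≤ δ ∧ ρ β δ ≤ n}.Finite
  sub1 : ∀ β α, β ≤ α → α ≤ δ → ρ β δ ≤ max (ρ β α) (ρ α δ)
  sub2 : ∀ β α, β ≤ α → α ≤ δ → ρ β α ≤ max (ρ β δ) (ρ α δ)

theorem extend {I : Type} [LinearOrder I] (δ : I) (hc : (Set.Iio δ).Countable)
    (ρ : I → I → ℕ) (h : ∀ α < δ, Good ρ α) :
    ∃ f : I → ℕ, f δ = 0 ∧ (∀ n, {β | β ≤ δ ∧ f β ≤ n}.Finite) ∧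
      (∀ β α, β ≤ α → α < δ → f β ≤ max (ρ β α) (f α)) ∧
      (∀ β α, β ≤ α → α < δ → ρ β α ≤ max (f β) (f α)) := by
  classical
  by_cases hne : (Set.Iio δ).Nonempty
  swap
  · have hE : ∀ α, ¬ α < δ := fun α hα => hne ⟨α, hα⟩
    refine ⟨fun _ => 0, rfl, ?_, ?_, ?_⟩
    · intro n
      refine (Set.finite_singleton δ).subset ?_
      intro β hβ
      exact le_antisymm hβ.1 (not_lt.mp (hE β))
    · intro β α _ hα
      exact absurd hα (hE α)
    · intro β α _ hα
      exact absurd hα (hE α)
  by_cases hmax : ∃ g, g < δ ∧ ∀ b, b < δ → b ≤ g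
  · obtain ⟨g, hg, hg2⟩ := hmax
    refine ⟨fun b => if b = δ then 0 else ρ b g, by simp, ?_, ?_, ?_⟩
    · intro n
      refine ((Set.finite_singleton δ).union ((h g hg).fin n)).subset ?_
      rintro β ⟨h1, h2⟩
      rcases eq_or_lt_of_le h1 with h3 | h3
      · exact Or.inl h3
      · refine Or.inr ⟨hg2 β h3, ?_⟩
        simpa only [if_neg h3.ne] using h2
    · intro β α hβα hα
      simp only [if_neg (lt_of_le_of_lt hβα hα).ne, if_neg hα.ne]
      exact (h g hg).sub1 β α hβα (hg2 α hα)
    · intro β α hβα hα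
      simp only [if_neg (lt_of_le_of_lt hβα hα).ne, if_neg hα.ne]
      exact (h g hg).sub2 β α hβα (hg2 α hα)
  -- no largest element
  have hnm : ∀ g, g < δ → ∃ z, z < δ ∧ g < z := by
    intro g hg
    by_contra hcon
    apply hmax
    refine ⟨g, hg, fun b hb => ?_⟩
    by_contra hbg
    exact hcon ⟨b, hb, not_le.mp hbg⟩
  obtain ⟨e, he⟩ := hc.exists_eq_range hne
  have heδ : ∀ i, e i < δ := by
    intro i
    have : e i ∈ Set.Iio δ := by rw [he]; exact ⟨i, rfl⟩
    exact this
  have hstep : ∀ x : {x : I // x < δ}, ∀ i : ℕ, ∃ z : {x : I // x < δ}, x.1 < z.1 ∧ e i ≤ z.1 := by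
    intro x i
    obtain ⟨z, hz, hz2⟩ := hnm (max x.1 (e i)) (max_lt x.2 (heδ i))
    exact ⟨⟨z, hz⟩, lt_of_le_of_lt (le_max_left _ _) hz2, (le_max_right _ _).trans hz2.le⟩
  choose nxt hn1 hn2 using hstep
  let B : ℕ → {x : I // x < δ} := fun n => Nat.rec ⟨e 0, heδ 0⟩ (fun i x => nxt x i) n
  have hB : ∀ i, B (i + 1) = nxt (B i) i := fun i => rfl
  let b : ℕ → I := fun i => (B i).1
  have hbδ : ∀ i, b i < δ := fun i => (B i).2
  have hbm : StrictMono b := by
    refine strictMono_nat_of_lt_succ fun i => ?_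
    show (B i).1 < (B (i + 1)).1
    rw [hB]
    exact hn1 _ _
  have hcof : ∀ a, a < δ → ∃ i, a ≤ b i := by
    intro a ha
    have : a ∈ Set.range e := by rw [← he]; exact ha
    obtain ⟨i, rfl⟩ := this
    refine ⟨i + 1, ?_⟩
    show e i ≤ (B (i + 1)).1
    rw [hB]
    exact hn2 _ _
  let t : ℕ → ℕ := fun i => i + ∑ j ∈ Finset.range i, ρ (b j) (b (j + 1))
  have ht1 : ∀ i, t i < t (i + 1) := by
    intro i
    simp only [t, Finset.sum_range_succ]
    omega
  have htm : StrictMono t := strictMono_nat_of_lt_succ ht1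
  have ht2 : ∀ i, ρ (b i) (b (i + 1)) ≤ t (i + 1) := by
    intro i
    simp only [t, Finset.sum_range_succ]
    omega
  have ht3 : ∀ i, i ≤ t i := by
    intro i
    simp only [t]
    omega
  let m : I → ℕ := fun a => sInf {i | a ≤ b i}
  have hm1 : ∀ a, a < δ → a ≤ b (m a) := by
    intro a ha
    exact Nat.sInf_mem (s := {i | a ≤ b i}) (hcof a ha)
  have hm2 : ∀ a i, a ≤ b i → m a ≤ i := by
    intro a i hi
    exact Nat.sInf_le hi
  have aux : ∀ i i', i ≤ i' → ρ (b i) (b i') ≤ t i' := by
    intro i i' hii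
    induction i', hii using Nat.le_induction with
    | base =>
      rw [(h (b i) (hbδ i)).self]
      exact Nat.zero_le _
    | succ k hk ih =>
      have h1 := (h (b (k + 1)) (hbδ (k + 1))).sub1 (b i) (b k) (hbm.monotone hk)
        (hbm.monotone (Nat.le_succ k))
      refine h1.trans (max_le ?_ (ht2 k))
      exact ih.trans (ht1 k).le
  let f : I → ℕ := fun a => if a < δ then max (t (m a)) (ρ a (b (m a))) else 0
  have hf : ∀ a, a < δ → f a = max (t (m a)) (ρ a (b (m a))) := by
    intro a ha
    simp only [f, if_pos ha]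
  refine ⟨f, ?_, ?_, ?_, ?_⟩
  · simp [f]
  · intro n
    have hfin : (⋃ i ∈ Finset.range (n + 1), {β | β ≤ b i ∧ ρ β (b i) ≤ n}).Finite := by
      refine Set.Finite.biUnion (Finset.finite_toSet _) fun i _ => (h (b i) (hbδ i)).fin n
    refine ((Set.finite_singleton δ).union hfin).subset ?_
    rintro β ⟨h1, h2⟩
    rcases eq_or_lt_of_le h1 with h3 | h3
    · exact Or.inl h3
    · right
      rw [hf β h3] at h2
      have h4 : t (m β) ≤ n := (le_max_left _ _).trans h2
      have h5 : ρ β (b (m β)) ≤ n := (le_max_right _ _).trans h2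
      simp only [Set.mem_iUnion]
      refine ⟨m β, ?_, hm1 β h3, h5⟩
      rw [Finset.mem_range]
      have := ht3 (m β)
      omega
  · intro β α hβα hα
    have hβ : β < δ := lt_of_le_of_lt hβα hα
    rw [hf β hβ, hf α hα]
    have hmm : m β ≤ m α := hm2 β _ (hβα.trans (hm1 α hα))
    refine max_le ?_ ?_
    · exact (htm.monotone hmm).trans ((le_max_left _ _).trans (le_max_right _ _))
    · rcases eq_or_lt_of_le hmm with hE | hL
      · rw [hE]
        refine ((h _ (hbδ (m α))).sub1 β α hβα (hm1 α hα)).trans ?_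
        exact max_le_max le_rfl (le_max_right _ _)
      · have h1 := (h _ (hbδ (m α))).sub2 β (b (m β)) (hm1 β hβ) (hbm.monotone hmm)
        have h2 := (h _ (hbδ (m α))).sub1 β α hβα (hm1 α hα)
        have h3 := aux _ _ hmm
        refine h1.trans (max_le ?_ ?_)
        · exact h2.trans (max_le_max le_rfl (le_max_right _ _))
        · exact h3.trans ((le_max_left _ _).trans (le_max_right _ _))
  · intro β α hβα hα
    have hβ : β < δ := lt_of_le_of_lt hβα hα
    rw [hf β hβ, hf α hα]
    have hmm : m β ≤ m α := hm2 β _ (hβα.trans (hm1 α hα))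
    rcases eq_or_lt_of_le hmm with hE | hL
    · rw [hE]
      refine ((h _ (hbδ (m α))).sub2 β α hβα (hm1 α hα)).trans ?_
      exact max_le_max (le_max_right _ _) (le_max_right _ _)
    · have h1 := (h _ (hbδ (m α))).sub2 β α hβα (hm1 α hα)
      have h2 := (h _ (hbδ (m α))).sub1 β (b (m β)) (hm1 β hβ) (hbm.monotone hmm)
      have h3 := aux _ _ hmm
      refine h1.trans (max_le ?_ ?_)
      · refine h2.trans (max_le ?_ ?_)
        · exact (le_max_right _ _).trans (le_max_left _ _)
        · exact h3.trans ((le_max_left _ _).trans (le_max_right _ _))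
      · exact (le_max_right _ _).trans (le_max_right _ _)

/-- the requirement on the column at `δ` -/
def Req {I : Type} [LinearOrder I] (δ : I) (ρ : I → I → ℕ) (f : I → ℕ) : Prop :=
  f δ = 0 ∧ (∀ n, {β | β ≤ δ ∧ f β ≤ n}.Finite) ∧
      (∀ β α, β ≤ α → α < δ → f β ≤ max (ρ β α) (f α)) ∧
      (∀ β α, β ≤ α → α < δ → ρ β α ≤ max (f β) (f α))

open Classical in
noncomputable def col {I : Type} [LinearOrder I] [WellFoundedLT I] : I → (I → ℕ) :=
  (wellFounded_lt (α := I)).fix fun δ prev =>
    if h : ∃ f : I → ℕ, Req δ (fun β α => if hα : α < δ then prev α hα β else 0) f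
    then h.choose else 0

theorem exists_rho {I : Type} [LinearOrder I] [WellFoundedLT I]
    (hc : ∀ δ : I, (Set.Iio δ).Countable) : ∃ ρ : I → I → ℕ, ∀ δ, Good ρ δ := by
  classical
  refine ⟨fun β α => col α β, fun δ => ?_⟩
  induction δ using WellFoundedLT.induction with
  | ind δ ih =>
    have hex : ∃ f : I → ℕ, Req δ (fun β α => if α < δ then col α β else 0) f := by
      refine extend δ (hc δ) _ ?_
      intro α hα
      have hg := ih α hα
      refine ⟨?_, ?_, ?_, ?_⟩
      · simp only [hα, if_true]; exact hg.self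
      · intro n; simpa only [hα, if_true] using hg.fin n
      · intro β γ h1 h2
        have h3 : γ < δ := h2.trans_lt hα
        simp only [hα, h3, if_true]
        exact hg.sub1 β γ h1 h2
      · intro β γ h1 h2
        have h3 : γ < δ := h2.trans_lt hα
        simp only [hα, h3, if_true]
        exact hg.sub2 β γ h1 h2
    have hcol : col δ = (if h : ∃ f : I → ℕ, Req δ (fun β α => if hα : α < δ then col α β else 0) f
        then h.choose else 0) := by
      unfold col
      rw [WellFounded.fix_eq]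
    have hcol' : Req δ (fun β α => if α < δ then col α β else 0) (col δ) := by
      rw [hcol, dif_pos (by simpa using hex)]
      have := (show ∃ f : I → ℕ, Req δ (fun β α => if hα : α < δ then col α β else 0) f by
        simpa using hex).choose_spec
      simpa using this
    obtain ⟨r0, r1, r2, r3⟩ := hcol'
    refine ⟨r0, r1, ?_, ?_⟩
    · intro β α h1 h2
      rcases h2.lt_or_eq with h | h
      · have := r2 β α h1 h
        simpa only [h, if_true] using this
      · subst h
        exact le_max_left _ _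
    · intro β α h1 h2
      rcases h2.lt_or_eq with h | h
      · have := r3 β α h1 h
        simpa only [h, if_true] using this
      · subst h
        exact le_max_left _ _

end Pool.Agent.Helper672.HZ
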