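import Mathlib
import Pool.Agent.Helper672.HZ.Base
import Pool.Agent.Helper672.HZ.Rho
import Pool.Agent.Helper672.HZ.ForceCH

set_option autoImplicit false

namespace Pool.Agent.Helper672.HZ

open Cardinal Pool.Agent.Helper672.HZ.ForceCH

theorem Iio_countable (α : Om) : (Set.Iio α).Countable := by
  have := ForceCH.countable_Iio α
  exact Set.countable_coe_iff.1 this

theorem fin_col {ρ : Om → Om → ℕ} (hρ : ∀ δ, Good ρ δ) (α : Om) (n : ℕ) :
    {i : {β : Om // β < α} | ρ i.1 α ≤ n}.Finite := by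
  have h := (hρ α).fin n
  refine Set.Finite.of_finite_image (f := Subtype.val) (h.subset ?_) Subtype.val_injective.injOn
  rintro _ ⟨i, hi, rfl⟩
  exact ⟨i.2.le, hi⟩

/-- The property of the data at `α`. -/
def P1 (ρ : Om → Om → ℕ) (D : Om → Dat) (α : Om) : Prop :=
  ∀ β, β < α → ∀ p : ℕ × ℕ, ρ β α ≤ p.1 → (∃ j, p ∈ (D α).A j ∨ p ∈ (D α).B j) →
    (D β).bd p.1 ≤ p.2

def Con (ρ : Om → Om → ℕ) (D : Om → Dat) (α : Om) (k : ℕ) (x : G) : Prop :=
  ∀ β, β < α → ∀ j, k ≤ j → ρ β α ≤ j → con (D β) j x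

theorem exists_D {ρ : Om → Om → ℕ} (hρ : ∀ δ, Good ρ δ) (O : Om → ℕ → Set G)
    (hO : ∀ α n, IsOpen (O α n)) (hanti : ∀ α m n, m ≤ n → O α n ⊆ O α m) :
    ∃ D : Om → Dat, ∀ α, P1 ρ D α ∧
      (((D α).pt ∈ H ∧ (∃ k, Con ρ D α k (D α).pt) ∧ ∃ n, (D α).pt ∉ O α n) ∨
       (∀ x k, Con ρ D α k x → (∀ j, k ≤ j → con (D α) j x) → ∀ n, x ∈ O α n)) := by
  let D : Om → Dat := (wellFounded_lt (α := Om)).fix fun α prev =>
    (step (ι := {β : Om // β < α}) (fun i => ρ i.1 α) (fin_col hρ α) (fun i => prev i.1 i.2)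
      (O α) (hO α) (hanti α)).choose
  have hD : ∀ α, D α = (step (ι := {β : Om // β < α}) (fun i => ρ i.1 α) (fin_col hρ α)
      (fun i => D i.1) (O α) (hO α) (hanti α)).choose := by
    intro α
    exact WellFounded.fix_eq _ _ _
  refine ⟨D, fun α => ?_⟩
  have hs := (step (ι := {β : Om // β < α}) (fun i => ρ i.1 α) (fin_col hρ α)
      (fun i => D i.1) (O α) (hO α) (hanti α)).choose_spec
  rw [← hD α] at hs
  obtain ⟨h1, h2⟩ := hs
  refine ⟨fun β hβ p hp hj => h1 ⟨β, hβ⟩ p hp hj, ?_⟩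
  rcases h2 with ⟨a, ⟨k, b⟩, c⟩ | h2
  · exact Or.inl ⟨a, ⟨k, fun β hβ j hj hr => b ⟨β, hβ⟩ j hj hr⟩, c⟩
  · exact Or.inr fun x k hx hx2 => h2 x k (fun i j hj hr => hx i.1 i.2 j hj hr) hx2

/-- The part of `ℕ × ℕ` used to split. -/
def Z (ρ : Om → Om → ℕ) (D : Om → Dat) (α : Om) : Set (ℕ × ℕ) :=
  {p | ∃ β, β < α ∧ ∃ j, ρ β α ≤ j ∧ p ∈ (D β).A j}

open Classical in
/-- restriction of `h` to `S` -/
noncomputable def cut (h : G) (S : Set (ℕ × ℕ)) : G := fun p => if p ∈ S then h p else 1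

theorem cut_mul (h : G) (S : Set (ℕ × ℕ)) : cut h Sᶜ * cut h S = h := by
  classical
  funext p
  simp only [cut, Pi.mul_apply, Set.mem_compl_iff]
  by_cases hp : p ∈ S <;> simp [hp]

theorem cut_mem {h : G} (hh : h ∈ H) (S : Set (ℕ × ℕ)) : cut h S ∈ H := by
  classical
  obtain ⟨N, hN⟩ := hh
  refine ⟨N, fun r hr => ?_⟩
  obtain ⟨c, hc⟩ := hN r hr
  refine ⟨c, fun c' hc' => ?_⟩
  simp only [cut]
  split_ifs
  · exact hc c' hc'
  · rfl

theorem con_out (ρ : Om → Om → ℕ) (D : Om → Dat) (α : Om) (h : G) :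
    Con ρ D α 0 (cut h (Z ρ D α)ᶜ) := by
  classical
  intro β hβ j _ hj
  left
  intro p hp
  have : p ∈ Z ρ D α := ⟨β, hβ, j, hj, hp⟩
  simp [cut, this]

theorem con_in {ρ : Om → Om → ℕ} (hρ : ∀ δ, Good ρ δ) {D : Om → Dat} (hD : ∀ α, P1 ρ D α)
    (α : Om) (h : G) : Con ρ D α 0 (cut h (Z ρ D α)) := by
  classical
  intro β hβ j _ hj
  right
  intro p hp
  have hZ : p ∉ Z ρ D α := by
    rintro ⟨γ, hγ, j', hj', hp'⟩
    have hr1 : ρ β α ≤ p.1 := hj.trans ((D β).hB j p hp)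
    have hr2 : ρ γ α ≤ p.1 := hj'.trans ((D γ).hA j' p hp')
    rcases lt_trichotomy γ β with hlt | heq | hlt
    · have h1 : ρ γ β ≤ p.1 := ((hρ α).sub2 γ β hlt.le hβ.le).trans (max_le hr2 hr1)
      have h2 := hD β γ hlt p h1 ⟨j, Or.inr hp⟩
      have h3 := (D γ).hbA j' p hp'
      omega
    · subst heq
      exact (D γ).disj j' j p hp' hp
    · have h1 : ρ β γ ≤ p.1 := ((hρ α).sub2 β γ hlt.le hγ.le).trans (max_le hr1 hr2)
      have h2 := hD γ β hlt p h1 ⟨j', Or.inl hp'⟩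
      have h3 := (D β).hbB j p hp
      omega
  simp [cut, hZ]

/-- coherence -/
theorem Con.down {ρ : Om → Om → ℕ} (hρ : ∀ δ, Good ρ δ) {D : Om → Dat} {α δ : Om} (hαδ : α < δ)
    {k : ℕ} {x : G} (h : Con ρ D δ k x) :
    Con ρ D α (max k (ρ α δ)) x ∧ ∀ j, max k (ρ α δ) ≤ j → con (D α) j x := by
  refine ⟨fun β hβ j hj hr => ?_, fun j hj => ?_⟩
  · refine h β (hβ.trans hαδ) j ((le_max_left _ _).trans hj) ?_
    exact ((hρ δ).sub1 β α hβ.le hαδ.le).trans (max_le hr ((le_max_right _ _).trans hj))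
  · exact h α hαδ j ((le_max_left _ _).trans hj) ((le_max_right _ _).trans hj)

theorem Con.mono {ρ : Om → Om → ℕ} {D : Om → Dat} {α : Om} {k k' : ℕ} {x : G}
    (hk : k ≤ k') (h : Con ρ D α k x) : Con ρ D α k' x :=
  fun β hβ j hj hr => h β hβ j (hk.trans hj) hr

theorem isClosed_Con (ρ : Om → Om → ℕ) (D : Om → Dat) (α : Om) (k : ℕ) :
    IsClosed {x : G | Con ρ D α k x ∧ ∀ j, k ≤ j → con (D α) j x} := by
  have h : {x : G | Con ρ D α k x ∧ ∀ j, k ≤ j → con (D α) j x} =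
      (⋂ (β : Om) (_ : β < α) (j : ℕ) (_ : k ≤ j) (_ : ρ β α ≤ j), {x : G | con (D β) j x}) ∩
      (⋂ (j : ℕ) (_ : k ≤ j), {x : G | con (D α) j x}) := by
    ext x
    simp only [Con, Set.mem_inter_iff, Set.mem_iInter]
    rfl
  rw [h]
  refine IsClosed.inter ?_ ?_
  · exact isClosed_iInter fun β => isClosed_iInter fun _ => isClosed_iInter fun j =>
      isClosed_iInter fun _ => isClosed_iInter fun _ => isClosed_con _ _
  · exact isClosed_iInter fun j => isClosed_iInter fun _ => isClosed_con _ _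

/-- `H` as a subgroup. -/
def HS : Subgroup G where
  carrier := H
  mul_mem' := by
    rintro x y ⟨N, hN⟩ ⟨N', hN'⟩
    refine ⟨max N N', fun r hr => ?_⟩
    obtain ⟨c, hc⟩ := hN r ((le_max_left _ _).trans hr)
    obtain ⟨c', hc'⟩ := hN' r ((le_max_right _ _).trans hr)
    refine ⟨max c c', fun d hd => ?_⟩
    simp [hc d ((le_max_left _ _).trans hd), hc' d ((le_max_right _ _).trans hd)]
  one_mem' := ⟨0, fun r _ => ⟨0, fun _ _ => rfl⟩⟩
  inv_mem' := by
    rintro x ⟨N, hN⟩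
    refine ⟨N, fun r hr => ?_⟩
    obtain ⟨c, hc⟩ := hN r hr
    exact ⟨c, fun d hd => by simp [hc d hd]⟩

theorem mk_G : #G = 𝔠 := by
  have h2 : #(Multiplicative (ZMod 2)) = 2 := by
    rw [Cardinal.mk_fintype]; rfl
  simp only [G, Cardinal.mk_pi, Cardinal.prod_const, h2]
  simp

theorem mk_codes : #(ℕ → Set ℕ) = 𝔠 := by
  simp

theorem mk_Om : #Om = ℵ₁ := by
  rw [mk_toType, card_ord]

theorem exists_codes : ∃ u : ℕ → Set G, (∀ i, IsOpen (u i)) ∧
    ∀ O : Set G, IsOpen O → ∃ s : Set ℕ, O = ⋃ i ∈ s, u i := by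
  obtain ⟨b, hbc, hbe, hb⟩ := TopologicalSpace.exists_countable_basis G
  have hne : b.Nonempty := by
    by_contra hcon
    rw [Set.not_nonempty_iff_eq_empty] at hcon
    have := hb.sUnion_eq
    rw [hcon, Set.sUnion_empty] at this
    exact (Set.empty_ne_univ this)
  obtain ⟨u, hu⟩ := hbc.exists_eq_range hne
  refine ⟨u, fun i => hb.isOpen (by rw [hu]; exact ⟨i, rfl⟩), fun O hO => ⟨{i | u i ⊆ O}, ?_⟩⟩
  ext x
  simp only [Set.mem_iUnion, exists_prop]
  constructor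
  · intro hx
    obtain ⟨v, hv, hxv, hvO⟩ := hb.exists_subset_of_mem_open hx hO
    rw [hu] at hv
    obtain ⟨i, rfl⟩ := hv
    exact ⟨i, hvO, hxv⟩
  · rintro ⟨i, hi, hx⟩
    exact hi hx

/-- The Hurewicz property in the form of the problem. -/
def Hurewicz {G : Type} [TopologicalSpace G] (X : Set G) : Prop :=
  ∀ U : ℕ → Set (Set G), (∀ n, (∀ u ∈ U n, IsOpen u) ∧ X ⊆ ⋃₀ U n) →
    ∃ F : ℕ → Finset (Set G), (∀ n, (↑(F n) : Set (Set G)) ⊆ U n) ∧
      ∀ x ∈ X, ∀ᶠ n in Filter.atTop, x ∈ ⋃₀ ((↑(F n) : Set (Set G)))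

theorem exists_X (hCH : (ℵ₁ : Cardinal.{0}) = 𝔠) : ∃ X : Set G, X ⊆ H ∧ (∀ h ∈ H, ∃ x ∈ X, ∃ y ∈ X, x * y = h) ∧
    Hurewicz X := by
  classical
  obtain ⟨ρ, hρ⟩ := exists_rho Iio_countable
  obtain ⟨u, hu1, hu2⟩ := exists_codes
  -- enumerations
  have hsurj : ∃ f : Om → (ℕ → Set ℕ), Function.Surjective f := by
    have h1 : #(ℕ → Set ℕ) ≤ #Om := by rw [mk_codes, mk_Om, hCH]
    obtain ⟨e⟩ := h1
    exact ⟨Function.invFun e, Function.invFun_surjective e.injective⟩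
  obtain ⟨f, hf⟩ := hsurj
  have hinj : ∃ idx : G → Om, Function.Injective idx := by
    have h1 : #G ≤ #Om := by rw [mk_G, mk_Om, hCH]
    obtain ⟨e⟩ := h1
    exact ⟨e, e.injective⟩
  obtain ⟨idx, hidx⟩ := hinj
  let O : Om → ℕ → Set G := fun α n => ⋂ m ∈ Finset.range (n + 1), ⋃ i ∈ f α m, u i
  have hO : ∀ α n, IsOpen (O α n) := fun α n =>
    isOpen_biInter_finset fun m _ => isOpen_biUnion fun i _ => hu1 i
  have hanti : ∀ α m n, m ≤ n → O α n ⊆ O α m := by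
    intro α m n hmn x hx
    simp only [O, Set.mem_iInter, Finset.mem_range] at hx ⊢
    exact fun l hl => hx l (by omega)
  obtain ⟨D, hD⟩ := exists_D hρ O hO hanti
  have hP1 : ∀ α, P1 ρ D α := fun α => (hD α).1
  let dead : Om → Prop := fun α => (D α).pt ∈ H ∧ (∃ k, Con ρ D α k (D α).pt) ∧ ∃ n, (D α).pt ∉ O α n
  let xh : G → G := fun h => cut h (Z ρ D (idx h))ᶜ
  let yh : G → G := fun h => cut h (Z ρ D (idx h))
  let X : Set G := {x | (∃ α, dead α ∧ x = (D α).pt) ∨ (∃ h ∈ H, x = xh h ∨ x = yh h)}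
  have hXH : X ⊆ H := by
    rintro x (⟨α, hα, rfl⟩ | ⟨h, hh, rfl | rfl⟩)
    · exact hα.1
    · exact cut_mem hh _
    · exact cut_mem hh _
  refine ⟨X, hXH, ?_, ?_⟩
  · intro h hh
    exact ⟨xh h, Or.inr ⟨h, hh, Or.inl rfl⟩, yh h, Or.inr ⟨h, hh, Or.inr rfl⟩, cut_mul h _⟩
  · intro U hU
    have hcode : ∀ n, ∃ s : Set ℕ, ⋃₀ U n = ⋃ i ∈ s, u i := fun n =>
      hu2 _ (isOpen_sUnion (hU n).1)
    choose c hc using hcode
    obtain ⟨α, hα⟩ := hf c
    have hOα : ∀ n, O α n = ⋂ m ∈ Finset.range (n + 1), ⋃₀ U m := by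
      intro n
      simp only [O, hα, hc]
    have hsub : ∀ n, O α n ⊆ ⋃₀ U n := by
      intro n x hx
      rw [hOα] at hx
      simp only [Set.mem_iInter, Finset.mem_range] at hx
      exact hx n (by omega)
    have hXO : ∀ x ∈ X, ∀ n, x ∈ O α n := by
      intro x hx n
      rw [hOα]
      simp only [Set.mem_iInter, Finset.mem_range]
      exact fun m _ => (hU m).2 hx
    have halive : ∀ x k, Con ρ D α k x → (∀ j, k ≤ j → con (D α) j x) → ∀ n, x ∈ O α n := by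
      rcases (hD α).2 with h | h
      · exfalso
        obtain ⟨n, hn⟩ := h.2.2
        exact hn (hXO _ (Or.inl ⟨α, h, rfl⟩) n)
      · exact h
    -- the compact pieces
    let C : ℕ → Set G := fun k => {x | Con ρ D α k x ∧ ∀ j, k ≤ j → con (D α) j x}
    have hCc : ∀ k, IsCompact (C k) := fun k => (isClosed_Con ρ D α k).isCompact
    have hCmono : ∀ k k', k ≤ k' → C k ⊆ C k' := by
      intro k k' hk x hx
      exact ⟨hx.1.mono hk, fun j hj => hx.2 j (hk.trans hj)⟩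
    have hCU : ∀ k n, C k ⊆ ⋃₀ U n := fun k n x hx => hsub n (halive x k hx.1 hx.2 n)
    -- the exceptional points
    let Y : Set G := (fun γ => (D γ).pt) '' (Set.Iic α) ∪ (xh '' {h | idx h ≤ α} ∪ yh '' {h | idx h ≤ α})
    have hIic : (Set.Iic α).Countable := by
      rw [← Set.Iio_union_right]
      exact (Iio_countable α).union (Set.countable_singleton α)
    have hidxc : {h : G | idx h ≤ α}.Countable := by
      have : {h : G | idx h ≤ α} = idx ⁻¹' (Set.Iic α) := rfl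
      rw [this]
      exact hIic.preimage_of_injOn hidx.injOn
    have hYc : Y.Countable := (hIic.image _).union ((hidxc.image _).union (hidxc.image _))
    have hXY : ∀ x ∈ X, x ∈ Y ∨ ∃ k, x ∈ C k := by
      rintro x (⟨γ, hγ, rfl⟩ | ⟨h, hh, hx⟩)
      · rcases le_or_gt γ α with hle | hgt
        · exact Or.inl (Or.inl ⟨γ, hle, rfl⟩)
        · obtain ⟨k, hk⟩ := hγ.2.1
          obtain ⟨h1, h2⟩ := hk.down hρ hgt
          exact Or.inr ⟨_, h1, h2⟩
      · rcases le_or_gt (idx h) α with hle | hgt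
        · rcases hx with rfl | rfl
          · exact Or.inl (Or.inr (Or.inl ⟨h, hle, rfl⟩))
          · exact Or.inl (Or.inr (Or.inr ⟨h, hle, rfl⟩))
        · rcases hx with rfl | rfl
          · obtain ⟨h1, h2⟩ := (con_out ρ D (idx h) h).down hρ hgt
            exact Or.inr ⟨_, h1, h2⟩
          · obtain ⟨h1, h2⟩ := (con_in hρ hP1 (idx h) h).down hρ hgt
            exact Or.inr ⟨_, h1, h2⟩
    have hXYc : (X ∩ Y).Countable := hYc.mono Set.inter_subset_right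
    -- enumerate the exceptional points
    have henum : ∃ y : ℕ → Set G, (∀ n, (y n).Finite) ∧ (∀ n, y n ⊆ X) ∧ (∀ m n, m ≤ n → y m ⊆ y n) ∧
        ∀ x ∈ X ∩ Y, ∃ n, x ∈ y n := by
      rcases (X ∩ Y).eq_empty_or_nonempty with he | hne
      · exact ⟨fun _ => ∅, by simp, by simp, by simp, by simp [he]⟩
      · obtain ⟨e, he⟩ := hXYc.exists_eq_range hne
        refine ⟨fun n => e '' (Set.Iic n), fun n => (Set.finite_Iic n).image _, ?_, ?_, ?_⟩
        · rintro n _ ⟨m, _, rfl⟩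
          have : e m ∈ X ∩ Y := by rw [he]; exact ⟨m, rfl⟩
          exact this.1
        · intro m n hmn
          exact Set.image_mono (Set.Iic_subset_Iic.2 hmn)
        · intro x hx
          rw [he] at hx
          obtain ⟨n, rfl⟩ := hx
          exact ⟨n, n, Set.mem_Iic.2 le_rfl, rfl⟩
    obtain ⟨y, hy1, hy2, hy3, hy4⟩ := henum
    have hcov : ∀ n, ∃ F : Finset (Set G), (↑F : Set (Set G)) ⊆ U n ∧
        C n ∪ y n ⊆ ⋃₀ (↑F : Set (Set G)) := by
      intro n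
      have hK : IsCompact (C n ∪ y n) := (hCc n).union (hy1 n).isCompact
      have hKU : C n ∪ y n ⊆ ⋃₀ U n :=
        Set.union_subset (hCU n n) ((hy2 n).trans (hU n).2)
      rw [Set.sUnion_eq_biUnion] at hKU
      obtain ⟨t, ht, htf, htc⟩ := hK.elim_finite_subcover_image (fun v hv => (hU n).1 v hv) hKU
      refine ⟨htf.toFinset, by simpa using ht, ?_⟩
      rw [Set.sUnion_eq_biUnion]
      simpa using htc
    choose F hF1 hF2 using hcov
    refine ⟨F, hF1, ?_⟩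
    intro x hx
    rcases hXY x hx with h | ⟨k, hk⟩
    · obtain ⟨n, hn⟩ := hy4 x ⟨hx, h⟩
      filter_upwards [Filter.eventually_ge_atTop n] with m hm
      exact hF2 m (Or.inr (hy3 n m hm hn))
    · filter_upwards [Filter.eventually_ge_atTop k] with m hm
      exact hF2 m (Or.inl (hCmono k m hm hk))

theorem closure_eq {X : Set G} (h1 : X ⊆ H) (h2 : ∀ h ∈ H, ∃ x ∈ X, ∃ y ∈ X, x * y = h) :
    ((Subgroup.closure X : Subgroup G) : Set G) = H := by
  apply Set.Subset.antisymm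
  · have : Subgroup.closure X ≤ HS := (Subgroup.closure_le HS).2 h1
    exact this
  · intro h hh
    obtain ⟨x, hx, y, hy, rfl⟩ := h2 h hh
    exact (Subgroup.closure X).mul_mem (Subgroup.subset_closure hx) (Subgroup.subset_closure hy)

end Pool.Agent.Helper672.HZ
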